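import Pool.Agent.Lib.MP_c55f2d_al.H54Tame

namespace Pool.Agent.Results.MP_c55f2d_al.TameBounded

open Pool.Agent.Lib.MP_c55f2d_al.H54

/-- For a tame algebra and every `d` one finitely generated module generates in two steps all
modules whose indecomposable summands have dimension at most `d`. -/
theorem result (k Λ : Type) [Field k] [Ring Λ] [Algebra k Λ] [FiniteDimensional k Λ]
    (h : Tame k Λ) (d : ℕ) : ∃ G : ModuleCat.{0} Λ, Module.Finite Λ G ∧
      ∀ (M : Type) [AddCommGroup M] [Module k M] [Module Λ M] [IsScalarTower k Λ M]
        [FiniteDimensional k M], (∀ (A : Type) [AddCommGroup A] [Module k A] [Module Λ A]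
          [IsScalarTower k Λ A], Summand Λ A M → Indec Λ A → Module.finrank k A ≤ d) →
        TwoStep Λ G M :=
  h.main d

end Pool.Agent.Results.MP_c55f2d_al.TameBounded
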