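import Pool.Agent.Lib.MP_c55f2d_al.Main

namespace Pool.Agent.Results.MP_c55f2d_al.WeightedSurface

open Pool.Agent.Lib.MP_c55f2d_al

/-- For a finite-dimensional selfinjective algebra presented, modulo the socle, like a weighted
surface algebra with all `m α * n α ≥ 4`, there is a finitely generated module `G` such that every
finitely generated module is an extension of two modules from `add G`. -/
theorem result (k V Ar Λ : Type) [Field k] [Ring Λ] [Algebra k Λ] [FiniteDimensional k Λ]
    [Module.Injective Λ Λ] [Fintype V] [Fintype Ar] (Q : TriQuiver V Ar) (m : Ar → ℕ)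
    (c : Ar → k) (e : V → Λ) (a : Ar → Λ) (h : WSPres k Q m c e a) :
    ∃ (G : Type) (_ : AddCommGroup G) (_ : Module Λ G), Module.Finite Λ G ∧
      ∀ (X : Type) [AddCommGroup X] [Module Λ X] [Module.Finite Λ X],
        ∃ Y : Submodule Λ X, InAdd Λ G Y ∧ InAdd Λ G (X ⧸ Y) :=
  h.main

end Pool.Agent.Results.MP_c55f2d_al.WeightedSurface
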